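import Pool.Agent.J6H30.Gal4.Gam

set_option autoImplicit false
set_option linter.unusedSectionVars false
set_option linter.unusedVariables false

/-! # Replacing a side of an equator by a vertex -/

namespace Pool.Agent.J6H30.Gal4

open Pool.Agent.W497.FS Pool.Agent.TH417.Gal Pool.Agent.J6H30.Gal2 Pool.Agent.J6H30.Gal3

section graph

variable {α : Type} [DecidableEq α] {H : SimpleGraph α} {W V A B : Finset α} {a : α}

/-- the graph with the side `A` replaced by `a` -/
def collG (H : SimpleGraph α) (V B : Finset α) (a : α) : SimpleGraph α where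
  Adj x z := x ≠ z ∧ ((x ∈ V ∪ B ∧ z ∈ V ∪ B ∧ H.Adj x z) ∨ (x = a ∧ z ∈ V) ∨ (z = a ∧ x ∈ V))
  symm := ⟨fun x z h => by
    obtain ⟨h1, h2⟩ := h
    refine ⟨h1.symm, ?_⟩
    rcases h2 with ⟨h2, h3, h4⟩ | h2 | h2
    · exact Or.inl ⟨h3, h2, h4.symm⟩
    · exact Or.inr (Or.inr h2)
    · exact Or.inr (Or.inl h2)⟩
  loopless := ⟨fun x h => h.1 rfl⟩

theorem collG_adj {x z : α} : (collG H V B a).Adj x z ↔
    x ≠ z ∧ ((x ∈ V ∪ B ∧ z ∈ V ∪ B ∧ H.Adj x z) ∨ (x = a ∧ z ∈ V) ∨ (z = a ∧ x ∈ V)) := Iff.rfl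

theorem Sep.notVB (h : Sep H W V A B) (ha : a ∈ A) : a ∉ V ∪ B := by
  rw [Finset.mem_union, not_or]
  exact ⟨fun h1 => Finset.disjoint_left.1 h.dVA h1 ha, fun h1 => Finset.disjoint_left.1 h.dAB ha h1⟩

theorem Sep.coll_adj (h : Sep H W V A B) (ha : a ∈ A) {x z : α} (hx : x ∈ V ∪ B)
    (hz : z ∈ V ∪ B) : (collG H V B a).Adj x z ↔ H.Adj x z := by
  have hn := h.notVB ha
  rw [collG_adj]
  constructor
  · rintro ⟨h1, ⟨-, -, h2⟩ | ⟨h2, -⟩ | ⟨h2, -⟩⟩
    · exact h2
    · exact absurd (h2 ▸ hx) hn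
    · exact absurd (h2 ▸ hz) hn
  · exact fun h1 => ⟨h1.ne, Or.inl ⟨hx, hz, h1⟩⟩

theorem Sep.coll_sep (h : Sep H W V A B) (ha : a ∈ A) :
    Sep (collG H V B a) (insert a (V ∪ B)) V {a} B where
  un := by
    ext x
    simp only [Finset.mem_union, Finset.mem_insert, Finset.mem_singleton]
    tauto
  dVA := Finset.disjoint_singleton_right.2 (fun h1 => Finset.disjoint_left.1 h.dVA h1 ha)
  dVB := h.dVB
  dAB := Finset.disjoint_singleton_left.2 (fun h1 => Finset.disjoint_left.1 h.dAB ha h1)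
  neA := Finset.singleton_nonempty a
  neB := h.neB
  no := by
    intro x hx b hb hab
    rw [Finset.mem_singleton] at hx
    subst hx
    rcases (collG_adj.1 hab).2 with ⟨h1, -, -⟩ | ⟨-, h1⟩ | ⟨-, h1⟩
    · exact h.notVB ha h1
    · exact Finset.disjoint_left.1 h.dVB h1 hb
    · exact h.notVB ha (Finset.mem_union_left _ h1)

theorem Sep.coll_bdy_a (h : Sep H W V A B) (ha : a ∈ A) :
    bdy (collG H V B a) (insert a (V ∪ B)) {a} = V := by
  refine Finset.Subset.antisymm (h.coll_sep ha).bdy_subset ?_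
  intro x hx
  have hxa : x ≠ a := fun he => h.notVB ha (Finset.mem_union_left _ (he ▸ hx))
  refine mem_bdy.2 ⟨Finset.mem_insert_of_mem (Finset.mem_union_left _ hx), ?_, a,
    Finset.mem_singleton_self a, collG_adj.2 ⟨hxa, Or.inr (Or.inr ⟨rfl, hx⟩)⟩⟩
  rw [Finset.mem_singleton]
  exact hxa

theorem Sep.coll_bdy_B (h : Sep H W V A B) (ha : a ∈ A) (hB : bdy H W B = V) :
    bdy (collG H V B a) (insert a (V ∪ B)) B = V := by
  refine Finset.Subset.antisymm (h.coll_sep ha).symm.bdy_subset ?_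
  intro x hx
  obtain ⟨h1, h2, b, hb, hxb⟩ := mem_bdy.1 (hB.symm ▸ hx)
  exact mem_bdy.2 ⟨Finset.mem_insert_of_mem (Finset.mem_union_left _ hx), h2, b, hb,
    (h.coll_adj ha (Finset.mem_union_left _ hx) (Finset.mem_union_right _ hb)).2 hxb⟩

theorem Sep.coll_Psi (h : Sep H W V A B) (ha : a ∈ A) (hB : bdy H W B = V) :
    Psi (collG H V B a) (insert a (V ∪ B)) B = Psi H W B := by
  have h1 : ∀ b ∈ B, lk (collG H V B a) (insert a (V ∪ B)) b = lk H W b := by
    intro b hb
    have hbV : b ∈ V ∪ B := Finset.mem_union_right _ hb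
    ext x
    rw [mem_lk, mem_lk]
    constructor
    · rintro ⟨h2, h3⟩
      rcases Finset.mem_insert.1 h2 with h4 | h4
      · exfalso
        rw [h4] at h3
        exact (h.coll_sep ha).no a (Finset.mem_singleton_self a) b hb h3.symm
      · refine ⟨?_, (h.coll_adj ha hbV h4).1 h3⟩
        rcases Finset.mem_union.1 h4 with h5 | h5
        · exact h.subV h5
        · exact h.subB h5
    · rintro ⟨h2, h3⟩
      have h4 : x ∈ V ∪ B := by
        rcases h.mem_or h2 with h5 | h5 | h5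
        · exact Finset.mem_union_left _ h5
        · exact absurd h3.symm (h.no x h5 b hb)
        · exact Finset.mem_union_right _ h5
      exact ⟨Finset.mem_insert_of_mem h4, (h.coll_adj ha hbV h4).2 h3⟩
  have h2 : dg (collG H V B a) B = dg H B :=
    dg_congr (fun x hx z hz => h.coll_adj ha (Finset.mem_union_right _ hx)
      (Finset.mem_union_right _ hz))
  rw [Psi, Psi, h2, h.coll_bdy_B ha hB, hB]
  have h3 : ∑ w ∈ B, ((lk (collG H V B a) (insert a (V ∪ B)) w).card : ℤ) =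
      ∑ w ∈ B, ((lk H W w).card : ℤ) :=
    Finset.sum_congr rfl (fun b hb => by rw [h1 b hb])
  rw [h3]

/-- **replacing a side by a vertex** -/
theorem Sep.G2_coll {D : ℕ} (hW : NP H (D + 2) W) (hV : NP H (D + 1) V) (h : Sep H W V A B)
    (ha : a ∈ A) {J : Finset α} (hJ : J ⊆ A) (hJs : SConn H J) (hJne : J.Nonempty) :
    G2 (collG H V B a) (D + 2) (insert a (V ∪ B)) ≤ G2 H (D + 2) W + (gcost H D V A J : ℕ) := by
  have hA := h.bdy_eq D hW hV
  have hB := h.symm.bdy_eq D hW hV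
  have h1 := h.G2_eq (D := D) hA hB
  have h2 := (h.coll_sep ha).G2_eq (D := D) (h.coll_bdy_a ha) (h.coll_bdy_B ha hB)
  have h3 : Psi (collG H V B a) (insert a (V ∪ B)) {a} = 0 :=
    Psi_single (Finset.mem_insert_self a _)
  have h4 : G2 (collG H V B a) (D + 1) V = G2 H (D + 1) V := by
    rw [G2, G2, dg_congr (fun x hx z hz => h.coll_adj ha (Finset.mem_union_left _ hx)
      (Finset.mem_union_left _ hz))]
  have h5 := h.side hW hV hJ hJs hJne
  rw [h.coll_Psi ha hB, h3, h4, Finset.card_singleton] at h2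
  rw [h1, h2]
  push_cast
  linarith

end graph

variable {k : Type} [Field k] {n d m : ℕ} {S : Finset (Finset (Fin n))}
  {V A B : Finset (Fin n)} {a : Fin n}

theorem collapse_eq (hS : IsFlagSphere k d S) (h : Sep (skel S) (vert S) V A B) (ha : a ∈ A) :
    collapse S V B a = cl (collG (skel S) V B a) (insert a (V ∪ B)) := by
  have hn := h.notVB ha
  have hVB : V ∪ B ⊆ vert S := Finset.union_subset h.subV h.subB
  ext F
  rw [collapse, Finset.mem_union, Finset.mem_image, ind, Finset.mem_filter, mem_cl]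
  constructor
  · rintro (⟨h1, h2⟩ | ⟨G, hG, rfl⟩)
    · refine ⟨h2.trans (Finset.subset_insert a _), fun x hx z hz hxz => ?_⟩
      rw [← hS.cl_eq, mem_cl] at h1
      exact (h.coll_adj ha (h2 hx) (h2 hz)).2 (h1.2 x hx z hz hxz)
    · rw [ind, Finset.mem_filter] at hG
      obtain ⟨h1, h2⟩ := hG
      rw [← hS.cl_eq, mem_cl] at h1
      refine ⟨Finset.insert_subset_insert a (h2.trans Finset.subset_union_left),
        fun x hx z hz hxz => ?_⟩
      rcases Finset.mem_insert.1 hx with h3 | h3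
      · rcases Finset.mem_insert.1 hz with h4 | h4
        · exact absurd (h3.trans h4.symm) hxz
        · exact collG_adj.2 ⟨hxz, Or.inr (Or.inl ⟨h3, h2 h4⟩)⟩
      · rcases Finset.mem_insert.1 hz with h4 | h4
        · exact collG_adj.2 ⟨hxz, Or.inr (Or.inr ⟨h4, h2 h3⟩)⟩
        · exact (h.coll_adj ha (Finset.mem_union_left _ (h2 h3))
            (Finset.mem_union_left _ (h2 h4))).2 (h1.2 x h3 z h4 hxz)
  · rintro ⟨h1, h2⟩
    by_cases haF : a ∈ F
    · right
      have h3 : F.erase a ⊆ V := by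
        intro x hx
        obtain ⟨h4, h5⟩ := Finset.mem_erase.1 hx
        rcases (collG_adj.1 (h2 a haF x h5 (Ne.symm h4))).2 with ⟨h6, -, -⟩ | ⟨-, h6⟩ | ⟨h6, -⟩
        · exact absurd h6 hn
        · exact h6
        · exact absurd h6 h4
      refine ⟨F.erase a, ?_, Finset.insert_erase haF⟩
      rw [ind, Finset.mem_filter, ← hS.cl_eq, mem_cl]
      refine ⟨⟨h3.trans h.subV, fun x hx z hz hxz => ?_⟩, h3⟩
      exact (h.coll_adj ha (Finset.mem_union_left _ (h3 hx)) (Finset.mem_union_left _ (h3 hz))).1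
        (h2 x (Finset.mem_of_mem_erase hx) z (Finset.mem_of_mem_erase hz) hxz)
    · left
      have h3 : F ⊆ V ∪ B := by
        intro x hx
        rcases Finset.mem_insert.1 (h1 hx) with h4 | h4
        · exact absurd (h4 ▸ hx) haF
        · exact h4
      refine ⟨?_, h3⟩
      rw [← hS.cl_eq, mem_cl]
      exact ⟨h3.trans hVB, fun x hx z hz hxz => (h.coll_adj ha (h3 hx) (h3 hz)).1
        (h2 x hx z hz hxz)⟩

/-- **replacing a side of an equator by a vertex** -/
theorem sphere_collapse (hS : IsFlagSphere k d S) (hd : 4 ≤ d)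
    (h : Equator k S (d - 1) (vert S) V A B) (ha : a ∈ A) {J : Finset (Fin n)} (hJ : J ⊆ A)
    (hJc : Conn S J) {γ γ' : ℕ → ℤ} (hγ : IsGamma d S γ)
    (hγ' : IsGamma d (collapse S V B a) γ') :
    2 * γ' 2 ≤ 2 * γ 2 + (cost S (d - 1) V A J : ℕ) := by
  obtain ⟨D, rfl⟩ : ∃ D, d = D + 2 := ⟨d - 2, by omega⟩
  have e1 : D + 2 - 1 = D + 1 := by omega
  rw [e1] at h ⊢
  have h1 := h.sep.G2_coll hS.np (ind_np h.sph h.sep.subV) ha hJ hJc.sconn hJc.1
  rw [collapse_eq hS h.sep ha] at hγ'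
  have h2 := gamma_cl (by omega) hγ'
  have h3 := gamma_G2 hS (by omega) hγ
  have h4 : cost S (D + 1) V A J = gcost (skel S) D V A J := by rw [cost_eq h.dVA, gcost]
  rw [h4, h2, h3]
  push_cast
  exact h1

end Pool.Agent.J6H30.Gal4
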