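import Pool.Agent.J6H30.Gal4.Sides

set_option autoImplicit false
set_option linter.unusedSectionVars false
set_option linter.unusedVariables false

/-! # The second gamma-number of a complex and of an equator -/

namespace Pool.Agent.J6H30.Gal4

open Pool.Agent.W497.FS Pool.Agent.TH417.Gal Pool.Agent.J6H30.Gal2 Pool.Agent.J6H30.Gal3 Polynomial

variable {α : Type} [DecidableEq α] {H : SimpleGraph α} {W V A B : Finset α}

theorem con_of_sconn {J : Finset α} (hs : SConn H J) (hne : J.Nonempty) : Con H J := by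
  have key : ∀ n : ℕ, n + 1 ≤ J.card → ∃ K ⊆ J, Con H K ∧ K.card = n + 1 := by
    intro n
    induction n with
    | zero =>
      intro _
      obtain ⟨w, hw⟩ := hne
      exact ⟨{w}, Finset.singleton_subset_iff.2 hw, Con.single w, Finset.card_singleton w⟩
    | succ n ih =>
      intro hc
      obtain ⟨K, hK, hcon, hKc⟩ := ih (by omega)
      have hneq : K ≠ J := fun h => by rw [h] at hKc; omega
      obtain ⟨a, ha, b, hb, hbJ, hab⟩ := hs K hK hcon.nonempty hneq
      exact ⟨insert b K, Finset.insert_subset hb hK, Con.step hcon hbJ ⟨a, ha, hab.symm⟩, by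
        rw [Finset.card_insert_of_notMem hbJ, hKc]⟩
  have hpos := Finset.card_pos.2 hne
  obtain ⟨K, hK, hcon, hKc⟩ := key (J.card - 1) (by omega)
  have : K = J := Finset.eq_of_subset_of_card_le hK (by omega)
  rwa [this] at hcon

/-- the growth of a connected set beyond a connected subset -/
theorem grow_from {D : ℕ} (hW : NP H (D + 2) W) {v : α} (hv : v ∈ W) (hA : A ⊆ nn H W v)
    (hs : SConn H A) {J : Finset α} (hJ : J ⊆ A) (hJs : SConn H J) (hJne : J.Nonempty)
    (out : α → ℕ) (hout : ∀ w ∈ A, out w + (lk H A w).card ≤ (lk H W w).card) :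
    2 * ((A.card : ℤ) - 1) * (2 * D + 1) - RR ((J.card : ℤ) - 2) -
      2 * ∑ w ∈ A \ J, ((2 * D - out w : ℕ) : ℤ) ≤ Psi H W A := by
  have hAW : A ⊆ W := fun x hx => (mem_nn.1 (hA hx)).1
  have key : ∀ n : ℕ, J.card + n ≤ A.card → ∃ K ⊆ A, J ⊆ K ∧ K.card = J.card + n ∧
      2 * ((K.card : ℤ) - 1) * (2 * D + 1) - RR ((J.card : ℤ) - 2) -
        2 * ∑ w ∈ K \ J, ((2 * D - out w : ℕ) : ℤ) ≤ Psi H W K := by
    intro n
    induction n with
    | zero =>
      intro _
      refine ⟨J, hJ, Finset.Subset.refl J, rfl, ?_⟩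
      rw [Finset.sdiff_self, Finset.sum_empty, mul_zero, sub_zero]
      exact grow hW hv (con_of_sconn hJs hJne) (hJ.trans hA)
    | succ n ih =>
      intro hc
      obtain ⟨K, hK, hJK, hKc, hle⟩ := ih (by omega)
      have hneq : K ≠ A := fun h => by rw [h] at hKc; omega
      obtain ⟨a, ha, b, hb, hbK, hab⟩ := hs K hK (hJne.mono hJK) hneq
      have hcc : (insert b K).card = K.card + 1 := Finset.card_insert_of_notMem hbK
      refine ⟨insert b K, Finset.insert_subset hb hK, hJK.trans (Finset.subset_insert b K), ?_, ?_⟩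
      · rw [hcc, hKc]
        ring
      · have e1 : insert b K \ J = insert b (K \ J) := by
          rw [Finset.insert_sdiff_of_notMem]
          exact fun h => hbK (hJK h)
        rw [e1, Finset.sum_insert (fun h => hbK (Finset.mem_sdiff.1 h).1), hcc]
        have h1 := Psi_step hW (hK.trans hAW) (mem_bdy.2 ⟨hAW hb, hbK, a, ha, hab.symm⟩)
        have h2 := hout b hb
        have h3 : (lk H K b).card ≤ (lk H A b).card := Finset.card_le_card (lk_mono hK b)
        have h4 : (2 * (D : ℤ)) ≤ (out b : ℤ) + ((2 * D - out b : ℕ) : ℤ) := by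
          have : 2 * D ≤ out b + (2 * D - out b) := by omega
          exact_mod_cast this
        have h5 : (0 : ℤ) ≤ ((2 * D - out b : ℕ) : ℤ) := Int.natCast_nonneg _
        have h6 : ((out b : ℕ) : ℤ) + (lk H K b).card ≤ (lk H W b).card := by
          have : out b + (lk H K b).card ≤ (lk H W b).card := by omega
          exact_mod_cast this
        push_cast
        rcases h1 with h1 | h1
        · linarith
        · linarith
  obtain ⟨K, hK, hJK, hKc, hle⟩ := key (A.card - J.card) (by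
    have := Finset.card_le_card hJ
    omega)
  have hKA : K = A := Finset.eq_of_subset_of_card_le hK (by
    have := Finset.card_le_card hJ
    omega)
  rw [hKA] at hle
  exact hle

/-- the cost of a side of an equator -/
noncomputable def gcost (H : SimpleGraph α) (D : ℕ) (V A J : Finset α) : ℕ :=
  (J.card - 4) * (J.card - 5) + 2 * ∑ w ∈ A \ J, (2 * D - (lk H V w).card)

theorem RR_nat (m : ℕ) : RR ((m : ℤ) - 2) = (((m - 4) * (m - 5) : ℕ) : ℤ) := by
  rcases Nat.lt_or_ge m 5 with h | h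
  · have h1 : m - 5 = 0 := by omega
    rw [h1, mul_zero, RR, if_pos]
    · rfl
    · have : (m : ℤ) < 5 := by exact_mod_cast h
      linarith
  · have h1 : (5 : ℤ) ≤ m := by exact_mod_cast h
    rw [RR_eq (by linarith)]
    push_cast [Nat.cast_sub (show 4 ≤ m by omega), Nat.cast_sub h]
    ring

theorem Sep.side {D : ℕ} (hW : NP H (D + 2) W) (hV : NP H (D + 1) V) (h : Sep H W V A B)
    {J : Finset α} (hJ : J ⊆ A) (hJs : SConn H J) (hJne : J.Nonempty) :
    2 * ((A.card : ℤ) - 1) * (2 * D + 1) - (gcost H D V A J : ℕ) ≤ Psi H W A := by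
  obtain ⟨b, hb⟩ := h.neB
  have hAn : A ⊆ nn H W b := fun a ha => mem_nn.2 ⟨h.subA ha,
    fun he => Finset.disjoint_left.1 h.dAB ha (he ▸ hb), fun hab => h.no a ha b hb hab.symm⟩
  have h1 := grow_from hW (h.subB hb) hAn (h.sconn D hW hV) hJ hJs hJne
    (fun w => (lk H V w).card) (fun w hw => by
      have h2 := h.deg w
      rw [h.symm.lk_empty hw, Finset.card_empty] at h2
      omega)
  rw [RR_nat] at h1
  have h3 : ((gcost H D V A J : ℕ) : ℤ) = (((J.card - 4) * (J.card - 5) : ℕ) : ℤ) +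
      2 * ∑ w ∈ A \ J, ((2 * D - (lk H V w).card : ℕ) : ℤ) := by
    rw [gcost]
    push_cast
    ring
  rw [h3]
  linarith

/-- **comparison with an induced equator** -/
theorem Sep.G2_le {D : ℕ} (hW : NP H (D + 2) W) (hV : NP H (D + 1) V) (h : Sep H W V A B)
    {J K : Finset α} (hJ : J ⊆ A) (hJs : SConn H J) (hJne : J.Nonempty) (hK : K ⊆ B)
    (hKs : SConn H K) (hKne : K.Nonempty) :
    G2 H (D + 1) V ≤ G2 H (D + 2) W + (gcost H D V A J + gcost H D V B K : ℕ) := by
  have h1 := h.G2_eq (D := D) (h.bdy_eq D hW hV) (h.symm.bdy_eq D hW hV)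
  have h2 := h.side hW hV hJ hJs hJne
  have h3 := h.symm.side hW hV hK hKs hKne
  push_cast
  linarith

/-- in rank three `G2` vanishes -/
theorem G2_three (h : NP H 3 W) (hE : Eul H 3 W) : G2 H 3 W = 0 := by
  obtain ⟨a, ha, -⟩ := GT_coeffs (FP_mem_two h hE)
  have e : (∑ i ∈ Finset.range (3 / 2 + 1), C (a i) * w ^ i * y ^ (3 - 2 * i) : ℤ[X]) =
      C (a 0) + C (6 * a 0 + a 1) * X + C (12 * a 0 + 3 * a 1) * X ^ 2 +
        C (8 * a 0 + 2 * a 1) * X ^ 3 := by
    rw [show 3 / 2 + 1 = 2 from rfl, Finset.sum_range_succ, Finset.sum_range_one, w, y]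
    simp only [C_add, C_mul, pow_zero, mul_one, Nat.mul_zero, Nat.sub_zero, pow_one]
    have h6 : (C (6 : ℤ) : ℤ[X]) = 6 := rfl
    have h12 : (C (12 : ℤ) : ℤ[X]) = 12 := rfl
    have h8 : (C (8 : ℤ) : ℤ[X]) = 8 := rfl
    have h2 : (C (2 : ℤ) : ℤ[X]) = 2 := rfl
    have h3 : (C (3 : ℤ) : ℤ[X]) = 3 := rfl
    rw [h6, h12, h8, h2, h3]
    ring
  rw [e] at ha
  have cf : ∀ b0 b1 b2 b3 : ℤ,
      (C b0 + C b1 * X + C b2 * X ^ 2 + C b3 * X ^ 3 : ℤ[X]).coeff 0 = b0 ∧
      (C b0 + C b1 * X + C b2 * X ^ 2 + C b3 * X ^ 3 : ℤ[X]).coeff 1 = b1 ∧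
      (C b0 + C b1 * X + C b2 * X ^ 2 + C b3 * X ^ 3 : ℤ[X]).coeff 2 = b2 := by
    intro b0 b1 b2 b3
    refine ⟨?_, ?_, ?_⟩ <;>
      simp only [coeff_add, coeff_C_mul, coeff_X_pow, coeff_X, coeff_C] <;> norm_num
  obtain ⟨c0, c1, c2⟩ := cf (a 0) (6 * a 0 + a 1) (12 * a 0 + 3 * a 1) (8 * a 0 + 2 * a 1)
  rw [← ha] at c0 c1 c2
  rw [FP_coeff_zero] at c0
  rw [FP_coeff_one] at c1
  have c3 := FP_coeff_two (H := H) W
  rw [c2] at c3
  rw [G2, ← c3, c1]
  push_cast
  linarith

end Pool.Agent.J6H30.Gal4
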