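import Pool.Agent.W497.FS.Fact

set_option autoImplicit false

/-! # Induced equators of flag homology spheres: definitions -/

namespace Pool.Agent.J6H30.Gal4

open Pool.Agent.W497.FS

variable {n : ℕ}

/-- the subcomplex of `S` induced on the vertex set `V` -/
def ind (S : Finset (Finset (Fin n))) (V : Finset (Fin n)) : Finset (Finset (Fin n)) :=
  S.filter (fun F => F ⊆ V)

/-- `J` is nonempty and connected in the complex `S` -/
def Conn (S : Finset (Finset (Fin n))) (J : Finset (Fin n)) : Prop :=
  J.Nonempty ∧ ∀ A ⊆ J, A.Nonempty → A ≠ J → ∃ a ∈ A, ∃ b ∈ J, b ∉ A ∧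
    ({a, b} : Finset (Fin n)) ∈ S

/-- the subcomplex induced on `V` is a flag homology `(m-1)`-sphere, and the other vertices of the
subcomplex induced on `W ⊇ V` are the disjoint union of two nonempty sets `A` and `B`, the sides,
without edges between `A` and `B` -/
structure Equator (k : Type) [Field k] (S : Finset (Finset (Fin n))) (m : ℕ)
    (W V A B : Finset (Fin n)) : Prop where
  sph : IsFlagSphere k m (ind S V)
  un : V ∪ (A ∪ B) = W
  dVA : Disjoint V A
  dVB : Disjoint V B
  dAB : Disjoint A B
  neA : A.Nonempty
  neB : B.Nonempty
  no : ∀ a ∈ A, ∀ b ∈ B, ({a, b} : Finset (Fin n)) ∉ S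

/-- the cost of the side `A` of the equator `V` of a complex of dimension `m`, computed with the
connected subset `J` of `A`: `(|J| - 4) (|J| - 5)`, `0` for `|J| ≤ 5`, plus two times the sum over
the vertices `w` of `A` not in `J` of the number of the neighbours of `w` in `V` missing
to `2 (m - 1)` -/
def cost (S : Finset (Finset (Fin n))) (m : ℕ) (V A J : Finset (Fin n)) : ℕ :=
  (J.card - 4) * (J.card - 5) + 2 * ∑ w ∈ A \ J,
    (2 * (m - 1) - (V.filter (fun x => ({w, x} : Finset (Fin n)) ∈ S)).card)

open scoped Classical in
/-- the join factors of dimension at least three (those containing a face with four vertices) -/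
noncomputable def bigFactors (S : Finset (Finset (Fin n))) : Finset (Finset (Fin n)) :=
  (Finset.univ : Finset (Finset (Fin n))).filter
    (fun C => IsFactor S C ∧ ∃ G ∈ S, G ⊆ C ∧ G.card = 4)

/-- the complex obtained from `S` by replacing the side `A` of the equator `V` by the vertex `a`
(all faces inside `V` and the other side `B`, and the cone with apex `a` over the faces in `V`) -/
def collapse (S : Finset (Finset (Fin n))) (V B : Finset (Fin n)) (a : Fin n) :
    Finset (Finset (Fin n)) :=
  ind S (V ∪ B) ∪ (ind S V).image (fun F => insert a F)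

end Pool.Agent.J6H30.Gal4
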