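import Pool.Agent.J6H30.Gal4.Coll

set_option autoImplicit false
set_option linter.unusedSectionVars false
set_option linter.unusedVariables false

/-! # The second gamma-number and the join factors -/

namespace Pool.Agent.J6H30.Gal4

open Pool.Agent.W497.FS Pool.Agent.TH417.Gal Pool.Agent.J6H30.Gal2 Pool.Agent.J6H30.Gal3

section graph

variable {α : Type} [DecidableEq α] {H : SimpleGraph α} {W : Finset α}

theorem G2_one (h : NP H 1 W) : G2 H 1 W = 0 := by
  have h1 : W.card = 2 := h.1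
  have h2 : dg H W = 0 := by
    rw [dg]
    refine Finset.sum_eq_zero (fun x hx => ?_)
    rw [Finset.card_eq_zero]
    apply Finset.eq_empty_of_forall_notMem
    intro z hz
    obtain ⟨h3, h4⟩ := mem_lk.1 hz
    exact h.2 x hx z h3 h4
  rw [G2, h1, h2]
  norm_num

theorem G2_two (h : NP H 2 W) : G2 H 2 W = 0 := by
  have h2 : dg H W = 2 * W.card := by
    rw [dg, Finset.sum_congr rfl (fun x hx => (show (lk H W x).card = 2 from (h.lk hx).1)),
      Finset.sum_const, smul_eq_mul, mul_comm]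
  rw [G2, h2]
  push_cast
  ring

/-- the contribution of a factor -/
def term (f : Finset α → ℕ) (C : Finset α) : ℕ :=
  (C.card - 3 * f C - 1) * (C.card - 3 * f C - 2)

open scoped Classical in
/-- the factors with a face with four vertices -/
noncomputable def bigc (H : SimpleGraph α) (W : Finset α) : Finset (Finset α) :=
  (comps H W).filter (fun C => ∃ G ∈ cl H C, G.card = 4)

theorem bigc_union {A B : Finset α} (hAB : Full H A B) (f : Finset α → ℕ) :
    ∑ C ∈ bigc H (A ∪ B), term f C = ∑ C ∈ bigc H A, term f C + ∑ C ∈ bigc H B, term f C := by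
  classical
  rw [bigc, comps_union hAB, Finset.filter_union, Finset.sum_union]
  · rfl
  · exact Finset.disjoint_filter_filter (comps_disjoint hAB)

theorem term_ge {N e c : ℕ} (hc : c ≤ e) :
    RR ((N : ℤ) + 1 - 3 * e) ≤ (((N - 3 * c - 1) * (N - 3 * c - 2) : ℕ) : ℤ) := by
  rcases Nat.lt_or_ge N (3 * e + 3) with h | h
  · rw [RR, if_pos]
    · positivity
    · have : (N : ℤ) < 3 * e + 3 := by exact_mod_cast h
      linarith
  · have h1 : (3 * (e : ℤ) + 3) ≤ N := by exact_mod_cast h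
    rw [RR_eq (by linarith)]
    have h2 : (((N - 3 * c - 1 : ℕ)) : ℤ) = N - 3 * c - 1 := by
      rw [Nat.cast_sub (by omega), Nat.cast_sub (by omega)]
      push_cast
      ring
    have h3 : (((N - 3 * c - 2 : ℕ)) : ℤ) = N - 3 * c - 2 := by
      rw [Nat.cast_sub (by omega), Nat.cast_sub (by omega)]
      push_cast
      ring
    have h4 : (c : ℤ) ≤ e := by exact_mod_cast hc
    rw [Nat.cast_mul, h2, h3]
    nlinarith

theorem G2_sum (f : Finset α → ℕ) {d : ℕ} (h : NP H d W) (hE : Eul H d W)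
    (hf : ∀ C ∈ comps H W, ∀ e, NP H e C → f C ≤ e) :
    -((∑ C ∈ bigc H W, term f C : ℕ) : ℤ) ≤ G2 H d W := by
  classical
  revert hf
  refine join_induction' (H := H) (P := fun d W => (∀ C ∈ comps H W, ∀ e, NP H e C → f C ≤ e) →
    -((∑ C ∈ bigc H W, term f C : ℕ) : ℤ) ≤ G2 H d W) ?_ ?_ ?_ h hE
  · intro _
    rw [bigc, comps_empty]
    simp [G2, dg]
  · intro d W h hE hp _ hf
    have hpos : (0 : ℤ) ≤ ((∑ C ∈ bigc H W, term f C : ℕ) : ℤ) := Int.natCast_nonneg _
    by_cases hd : d + 1 ≤ 3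
    · have h0 : G2 H ((d + 1 : ℕ) : ℤ) W = 0 := by
        have hcase : d = 0 ∨ d = 1 ∨ d = 2 := by omega
        rcases hcase with rfl | rfl | rfl
        · exact G2_one h
        · exact G2_two h
        · exact G2_three h hE
      rw [h0]
      linarith
    · have hbig : bigc H W = {W} := by
        rw [bigc, comps_prm hp, Finset.filter_singleton, if_pos]
        obtain ⟨β, hβ, hβc, -⟩ := h.exists_facet
        obtain ⟨G, hG, hGc⟩ := Finset.exists_subset_card_eq (s := β) (n := 4) (by omega)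
        exact ⟨G, cl_of_subset hβ hG, hGc⟩
      rw [hbig, Finset.sum_singleton]
      have h1 := hf W (by rw [comps_prm hp]; exact Finset.mem_singleton_self W) (d + 1) h
      have h2 := G2_prime d h hp
      have h3 := term_ge (N := W.card) h1
      rw [term]
      push_cast at h2 h3 ⊢
      linarith
  · intro d₁ d₂ A B hA hB _ _ _ hAB h1 h2 hf
    have e1 : (((d₁ + 1 + (d₂ + 1) : ℕ)) : ℤ) = ((d₁ + 1 : ℕ) : ℤ) + ((d₂ + 1 : ℕ) : ℤ) := by
      push_cast; ring
    have h6 : (2 * ((d₁ + 1 : ℕ) : ℤ)) ≤ A.card := by exact_mod_cast hA.two_mul_le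
    have h7 : (2 * ((d₂ + 1 : ℕ) : ℤ)) ≤ B.card := by exact_mod_cast hB.two_mul_le
    have h8 : (0 : ℤ) ≤ (A.card - 2 * ((d₁ + 1 : ℕ) : ℤ)) * (B.card - 2 * ((d₂ + 1 : ℕ) : ℤ)) :=
      mul_nonneg (by linarith) (by linarith)
    have h9 := h1 (fun C hC => hf C (by rw [comps_union hAB]; exact Finset.mem_union_left _ hC))
    have h10 := h2 (fun C hC => hf C (by rw [comps_union hAB]; exact Finset.mem_union_right _ hC))
    rw [e1, G2_join hAB, bigc_union hAB]
    push_cast at h9 h10 h8 ⊢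
    linarith

end graph

variable {k : Type} [Field k] {n d : ℕ} {S : Finset (Finset (Fin n))}

theorem bigFactors_eq (hS : IsFlagSphere k d S) : bigFactors S = bigc (skel S) (vert S) := by
  classical
  ext C
  rw [bigFactors, bigc, Finset.mem_filter, Finset.mem_filter, mem_comps_iff]
  constructor
  · rintro ⟨-, h1, G, hG, hGC, hGc⟩
    exact ⟨h1, G, Y365.FS.cl_of_face hS hG hGC, hGc⟩
  · rintro ⟨h1, G, hG, hGc⟩
    obtain ⟨h2, h3⟩ := Y365.FS.face_of_cl hS (mem_comps_iff.2 h1) hG
    exact ⟨Finset.mem_univ _, h1, G, h2, h3, hGc⟩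

/-- **the second gamma-number and the join factors** -/
theorem sphere_factors (hS : IsFlagSphere k d S) (hd : 4 ≤ d) {γ : ℕ → ℤ} (hγ : IsGamma d S γ)
    {F : Finset (Fin n) → Finset (Fin n)} (hF : ∀ C, IsFactor S C → F C ∈ S ∧ F C ⊆ C) :
    -((∑ C ∈ bigFactors S, (C.card - 3 * (F C).card - 1) * (C.card - 3 * (F C).card - 2) : ℕ) : ℤ) ≤
      2 * γ 2 := by
  have h1 := G2_sum (fun C => (F C).card) hS.np hS.eul (fun C hC e he => by
    obtain ⟨h2, h3⟩ := hF C (mem_comps_iff.1 hC)
    exact he.card_le (Y365.FS.cl_of_face hS h2 h3))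
  rw [gamma_G2 hS hd hγ, bigFactors_eq hS]
  exact h1

end Pool.Agent.J6H30.Gal4
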