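import Pool.Agent.J6H30.Gal4.Sph

set_option autoImplicit false
set_option linter.unusedSectionVars false
set_option linter.unusedVariables false

/-! # The first three coefficients of the h-polynomial -/

namespace Pool.Agent.J6H30.Gal4

open Pool.Agent.W497.FS Pool.Agent.TH417.Gal Pool.Agent.J6H30.Gal2 Pool.Agent.J6H30.Gal3 Polynomial

theorem pow_sub_coeff (m : ℕ) : ((1 - X : ℤ[X]) ^ m).coeff 0 = 1 ∧
    ((1 - X : ℤ[X]) ^ m).coeff 1 = -m ∧ 2 * ((1 - X : ℤ[X]) ^ m).coeff 2 = m * (m - 1) := by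
  induction m with
  | zero => simp [coeff_one]
  | succ m ih =>
    obtain ⟨h0, h1, h2⟩ := ih
    have e : (1 - X : ℤ[X]) ^ (m + 1) = (1 - X) ^ m - (1 - X) ^ m * X := by ring
    have k0 : ((1 - X : ℤ[X]) ^ m * X).coeff 0 = 0 := by simp
    have k1 : ((1 - X : ℤ[X]) ^ m * X).coeff 1 = ((1 - X : ℤ[X]) ^ m).coeff 0 := coeff_mul_X _ 0
    have k2 : ((1 - X : ℤ[X]) ^ m * X).coeff 2 = ((1 - X : ℤ[X]) ^ m).coeff 1 := coeff_mul_X _ 1
    rw [e, coeff_sub, coeff_sub, coeff_sub, k0, k1, k2, h0, h1]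
    push_cast
    refine ⟨by norm_num, by linarith, by linarith⟩

theorem pow_add_coeff (m : ℕ) : ((1 + X : ℤ[X]) ^ m).coeff 0 = 1 ∧
    ((1 + X : ℤ[X]) ^ m).coeff 1 = m ∧ 2 * ((1 + X : ℤ[X]) ^ m).coeff 2 = m * (m - 1) := by
  induction m with
  | zero => simp [coeff_one]
  | succ m ih =>
    obtain ⟨h0, h1, h2⟩ := ih
    have e : (1 + X : ℤ[X]) ^ (m + 1) = (1 + X) ^ m + (1 + X) ^ m * X := by ring
    have k0 : ((1 + X : ℤ[X]) ^ m * X).coeff 0 = 0 := by simp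
    have k1 : ((1 + X : ℤ[X]) ^ m * X).coeff 1 = ((1 + X : ℤ[X]) ^ m).coeff 0 := coeff_mul_X _ 0
    have k2 : ((1 + X : ℤ[X]) ^ m * X).coeff 2 = ((1 + X : ℤ[X]) ^ m).coeff 1 := coeff_mul_X _ 1
    rw [e, coeff_add, coeff_add, coeff_add, k0, k1, k2, h0, h1]
    push_cast
    refine ⟨by norm_num, by linarith, by linarith⟩

theorem sum_coeff_low {N : ℕ} (hN : 3 ≤ N) (a : ℕ → ℤ) (q : ℕ → ℤ[X]) (c : ℕ) (hc : c < 3) :
    (∑ j ∈ Finset.range N, C (a j) * X ^ j * q j).coeff c =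
      ∑ j ∈ Finset.range (c + 1), a j * (q j).coeff (c - j) := by
  rw [finsetSum_coeff]
  have hsub : Finset.range (c + 1) ⊆ Finset.range N := by
    intro j hj
    rw [Finset.mem_range] at hj ⊢
    omega
  rw [← Finset.sum_subset hsub]
  · refine Finset.sum_congr rfl (fun j hj => ?_)
    rw [Finset.mem_range] at hj
    rw [mul_assoc, coeff_C_mul, mul_comm (X ^ j), coeff_mul_X_pow', if_pos (by omega)]
  · intro j _ hj
    rw [Finset.mem_range, not_lt] at hj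
    rw [mul_assoc, coeff_C_mul, mul_comm (X ^ j), coeff_mul_X_pow', if_neg (by omega), mul_zero]

/-- `γ₂` of an arbitrary complex in terms of the numbers of vertices and edges -/
theorem gamma_two_low {d : ℕ} (hd : 4 ≤ d) (f γ : ℕ → ℤ) (h0 : f 0 = 1)
    (h : (∑ j ∈ Finset.range (d + 1), C (f j) * X ^ j * (1 - X) ^ (d - j) : ℤ[X])
      = ∑ i ∈ Finset.range (d / 2 + 1), C (γ i) * X ^ i * (1 + X) ^ (d - 2 * i)) :
    2 * γ 2 = 2 * f 2 - (4 * d - 6) * f 1 + 4 * d * (d - 2) := by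
  have hA : ∀ c < 3, ∑ j ∈ Finset.range (c + 1), f j * ((1 - X : ℤ[X]) ^ (d - j)).coeff (c - j) =
      ∑ j ∈ Finset.range (c + 1), γ j * ((1 + X : ℤ[X]) ^ (d - 2 * j)).coeff (c - j) := by
    intro c hc
    have h1 := congrArg (fun p : ℤ[X] => p.coeff c) h
    rw [sum_coeff_low (by omega) f (fun j => (1 - X) ^ (d - j)) c hc,
      sum_coeff_low (by omega) γ (fun j => (1 + X) ^ (d - 2 * j)) c hc] at h1
    exact h1
  have a0 := hA 0 (by norm_num)
  have a1 := hA 1 (by norm_num)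
  have a2 := hA 2 (by norm_num)
  simp only [Finset.sum_range_succ, Finset.sum_range_zero, zero_add, Nat.sub_zero, Nat.mul_zero,
    Nat.sub_self] at a0 a1 a2
  obtain ⟨p0, p1, p2⟩ := pow_sub_coeff d
  obtain ⟨q0, q1, q2⟩ := pow_sub_coeff (d - 1)
  obtain ⟨r0, -, -⟩ := pow_sub_coeff (d - 2)
  obtain ⟨s0, s1, s2⟩ := pow_add_coeff d
  obtain ⟨t0, t1, -⟩ := pow_add_coeff (d - 2 * 1)
  obtain ⟨u0, -, -⟩ := pow_add_coeff (d - 2 * 2)
  rw [p0, s0, h0] at a0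
  rw [p1, q0, s1, t0, h0] at a1
  have e21 : (2 - 1 : ℕ) = 1 := rfl
  rw [e21, q1, r0, t1, u0, h0] at a2
  have c1 : ((d - 1 : ℕ) : ℤ) = d - 1 := by
    rw [Nat.cast_sub (by omega)]
    norm_num
  have c2 : ((d - 2 * 1 : ℕ) : ℤ) = d - 2 := by
    rw [Nat.cast_sub (by omega)]
    norm_num
  rw [c1, c2] at a2
  have g0 : γ 0 = 1 := by linarith
  have g1 : γ 1 = f 1 - 2 * d := by
    rw [g0] at a1
    linarith
  rw [g0, g1] at a2
  have a3 : 2 * ((1 - X : ℤ[X]) ^ d).coeff 2 = 2 * ((1 + X : ℤ[X]) ^ d).coeff 2 := by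
    rw [p2, s2]
  linarith

variable {n : ℕ}

theorem card_filter_one {H : SimpleGraph (Fin n)} {W : Finset (Fin n)} :
    (((cl H W).filter (fun σ => σ.card = 1)).card : ℤ) = W.card := by
  rw [← FP_coeff_one (H := H), FP, finsetSum_coeff, Finset.card_filter]
  push_cast
  refine Finset.sum_congr rfl (fun σ _ => ?_)
  rw [coeff_X_pow]
  by_cases h : σ.card = 1
  · rw [if_pos h, if_pos h.symm]
  · rw [if_neg h, if_neg (fun h' => h h'.symm)]

theorem card_filter_zero {H : SimpleGraph (Fin n)} {W : Finset (Fin n)} :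
    (((cl H W).filter (fun σ => σ.card = 0)).card : ℤ) = 1 := by
  rw [← FP_coeff_zero (H := H) W, FP, finsetSum_coeff, Finset.card_filter]
  push_cast
  refine Finset.sum_congr rfl (fun σ _ => ?_)
  rw [coeff_X_pow]
  by_cases h : σ.card = 0
  · rw [if_pos h, if_pos h.symm]
  · rw [if_neg h, if_neg (fun h' => h h'.symm)]

/-- `γ₂` of a flag complex -/
theorem gamma_cl {d : ℕ} (hd : 4 ≤ d) {H : SimpleGraph (Fin n)} {W : Finset (Fin n)} {γ : ℕ → ℤ}
    (h : IsGamma d (cl H W) γ) : 2 * γ 2 = G2 H d W := by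
  obtain ⟨f, hf⟩ : ∃ f : ℕ → ℤ, ∀ j, f j = ((((cl H W).filter (fun G => G.card = j)).card : ℕ) : ℤ) :=
    ⟨_, fun _ => rfl⟩
  have h0 : f 0 = 1 := by rw [hf]; exact card_filter_zero
  have h1 : f 1 = W.card := by rw [hf]; exact card_filter_one
  have h2 : 2 * f 2 = dg H W := by rw [hf, dg_eq_two_mul]
  have h3 : (∑ j ∈ Finset.range (d + 1), C (f j) * X ^ j * (1 - X) ^ (d - j) : ℤ[X])
      = ∑ i ∈ Finset.range (d / 2 + 1), C (γ i) * X ^ i * (1 + X) ^ (d - 2 * i) := by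
    rw [IsGamma] at h
    rw [← h]
    exact Finset.sum_congr rfl (fun j _ => by rw [hf])
  rw [gamma_two_low hd f γ h0 h3, h1, h2, G2]

end Pool.Agent.J6H30.Gal4
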