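import Pool.Agent.J6H30.Gal3.Mix

set_option autoImplicit false
set_option linter.unusedSectionVars false
set_option linter.unusedVariables false

/-! # Induced equators: counting -/

namespace Pool.Agent.J6H30.Gal4

open Pool.Agent.W497.FS Pool.Agent.TH417.Gal Pool.Agent.J6H30.Gal2 Pool.Agent.J6H30.Gal3

variable {α : Type} [DecidableEq α] {H : SimpleGraph α}

/-- the growth of a connected set whose vertices have many neighbours outside -/
theorem grow_out {D : ℕ} {W A : Finset α} (hW : NP H (D + 2) W) (hAW : A ⊆ W)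
    (hs : SConn H A) {u : α} (hu : u ∈ A) (out : α → ℕ)
    (hout : ∀ w ∈ A, out w + (lk H A w).card ≤ (lk H W w).card) :
    2 * ((A.card : ℤ) - 1) * (2 * D + 1) - 2 * ∑ w ∈ A.erase u, ((2 * D - out w : ℕ) : ℤ) ≤
      Psi H W A := by
  have key : ∀ n : ℕ, n + 1 ≤ A.card → ∃ J ⊆ A, u ∈ J ∧ J.card = n + 1 ∧
      2 * (n : ℤ) * (2 * D + 1) - 2 * ∑ w ∈ J.erase u, ((2 * D - out w : ℕ) : ℤ) ≤ Psi H W J := by
    intro n
    induction n with
    | zero =>
      intro _
      refine ⟨{u}, Finset.singleton_subset_iff.2 hu, Finset.mem_singleton_self u,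
        Finset.card_singleton u, ?_⟩
      rw [Psi_single (hAW hu)]
      simp
    | succ n ih =>
      intro hc
      obtain ⟨J, hJ, huJ, hJc, hle⟩ := ih (by omega)
      have hneq : J ≠ A := fun h => by rw [h] at hJc; omega
      obtain ⟨a, ha, b, hb, hbJ, hab⟩ := hs J hJ ⟨u, huJ⟩ hneq
      refine ⟨insert b J, Finset.insert_subset hb hJ, Finset.mem_insert_of_mem huJ, ?_, ?_⟩
      · rw [Finset.card_insert_of_notMem hbJ, hJc]
      · have hbu : b ≠ u := fun h => hbJ (h ▸ huJ)
        have e1 : (insert b J).erase u = insert b (J.erase u) :=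
          Finset.erase_insert_of_ne hbu
        rw [e1, Finset.sum_insert (fun h => hbJ (Finset.mem_of_mem_erase h))]
        have h1 := Psi_step hW (hJ.trans hAW) (mem_bdy.2 ⟨hAW hb, hbJ, a, ha, hab.symm⟩)
        have h2 := hout b hb
        have h3 : (lk H J b).card ≤ (lk H A b).card := Finset.card_le_card (lk_mono hJ b)
        have h4 : (2 * (D : ℤ)) ≤ (out b : ℤ) + ((2 * D - out b : ℕ) : ℤ) := by
          have : 2 * D ≤ out b + (2 * D - out b) := by omega
          exact_mod_cast this
        have h5 : (0 : ℤ) ≤ ((2 * D - out b : ℕ) : ℤ) := Int.natCast_nonneg _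
        have h6 : ((out b : ℕ) : ℤ) + (lk H J b).card ≤ (lk H W b).card := by
          have : out b + (lk H J b).card ≤ (lk H W b).card := by omega
          exact_mod_cast this
        push_cast
        rcases h1 with h1 | h1
        · linarith
        · linarith
  have hpos := Finset.card_pos.2 ⟨u, hu⟩
  obtain ⟨J, hJ, huJ, hJc, hle⟩ := key (A.card - 1) (by omega)
  have hJA : J = A := Finset.eq_of_subset_of_card_le hJ (by omega)
  rw [hJA] at hle
  have h1 : ((A.card - 1 : ℕ) : ℤ) = (A.card : ℤ) - 1 := by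
    rw [Nat.cast_sub (by omega)]
    norm_num
  rw [h1] at hle
  exact hle

/-- double counting of the edges between two sets -/
theorem sum_lk_comm (A B : Finset α) :
    ∑ a ∈ A, (lk H B a).card = ∑ b ∈ B, (lk H A b).card := by
  classical
  have e1 : ∀ a ∈ A, (lk H B a).card = ∑ b ∈ B, if H.Adj a b then 1 else 0 := by
    intro a _
    rw [← Finset.card_filter]
    congr 1
  have e2 : ∀ b ∈ B, (lk H A b).card = ∑ a ∈ A, if H.Adj a b then 1 else 0 := by
    intro b _
    rw [← Finset.card_filter]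
    congr 1
    ext x
    rw [mem_lk, Finset.mem_filter, H.adj_comm]
  rw [Finset.sum_congr rfl e1, Finset.sum_congr rfl e2, Finset.sum_comm]

theorem lk_union (A B : Finset α) (x : α) : lk H (A ∪ B) x = lk H A x ∪ lk H B x := by
  ext z
  rw [mem_lk, Finset.mem_union, Finset.mem_union, mem_lk, mem_lk]
  tauto

theorem card_lk_union {A B : Finset α} (h : Disjoint A B) (x : α) :
    (lk H (A ∪ B) x).card = (lk H A x).card + (lk H B x).card := by
  rw [lk_union, Finset.card_union_of_disjoint]
  exact Finset.disjoint_of_subset_left lk_subset (Finset.disjoint_of_subset_right lk_subset h)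

/-- `V` separates the vertex set of the complex into the two nonempty parts `A` and `B` -/
structure Sep (H : SimpleGraph α) (W V A B : Finset α) : Prop where
  un : V ∪ (A ∪ B) = W
  dVA : Disjoint V A
  dVB : Disjoint V B
  dAB : Disjoint A B
  neA : A.Nonempty
  neB : B.Nonempty
  no : ∀ a ∈ A, ∀ b ∈ B, ¬ H.Adj a b

variable {W V A B : Finset α}

theorem Sep.symm (h : Sep H W V A B) : Sep H W V B A :=
  ⟨by rw [Finset.union_comm B A]; exact h.un, h.dVB, h.dVA, h.dAB.symm, h.neB, h.neA,
    fun b hb a ha hab => h.no a ha b hb hab.symm⟩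

theorem Sep.lk_empty (h : Sep H W V A B) {b : α} (hb : b ∈ B) : lk H A b = ∅ := by
  apply Finset.eq_empty_of_forall_notMem
  intro x hx
  obtain ⟨h1, h2⟩ := mem_lk.1 hx
  exact h.no x h1 b hb h2.symm

theorem Sep.subV (h : Sep H W V A B) : V ⊆ W := by
  rw [← h.un]; exact Finset.subset_union_left

theorem Sep.subA (h : Sep H W V A B) : A ⊆ W := by
  rw [← h.un]
  exact Finset.subset_union_left.trans Finset.subset_union_right

theorem Sep.subB (h : Sep H W V A B) : B ⊆ W := h.symm.subA

theorem Sep.mem_or (h : Sep H W V A B) {x : α} (hx : x ∈ W) : x ∈ V ∨ x ∈ A ∨ x ∈ B := by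
  rw [← h.un, Finset.mem_union, Finset.mem_union] at hx
  exact hx

theorem Sep.deg (h : Sep H W V A B) (x : α) :
    (lk H W x).card = (lk H V x).card + ((lk H A x).card + (lk H B x).card) := by
  have h1 : Disjoint V (A ∪ B) := Finset.disjoint_union_right.2 ⟨h.dVA, h.dVB⟩
  have h2 := card_lk_union (H := H) h1 x
  rw [card_lk_union h.dAB, h.un] at h2
  exact h2

theorem Sep.sumA (h : Sep H W V A B) :
    ∑ a ∈ A, (lk H W a).card = ∑ a ∈ A, (lk H V a).card + dg H A := by
  rw [dg, ← Finset.sum_add_distrib]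
  refine Finset.sum_congr rfl (fun a ha => ?_)
  rw [h.deg, h.symm.lk_empty ha, Finset.card_empty, add_zero]

/-- **the degree sum in terms of an equator and its sides** -/
theorem Sep.dg_eq (h : Sep H W V A B) (hA : bdy H W A = V) (hB : bdy H W B = V) :
    (dg H W : ℤ) = dg H V + 4 * V.card + Psi H W A + Psi H W B := by
  have h1 : Disjoint V (A ∪ B) := Finset.disjoint_union_right.2 ⟨h.dVA, h.dVB⟩
  have h2 : dg H W = ∑ x ∈ V, (lk H W x).card + (∑ a ∈ A, (lk H W a).card +
      ∑ b ∈ B, (lk H W b).card) := by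
    have e1 : dg H W = ∑ x ∈ V ∪ (A ∪ B), (lk H W x).card := by
      rw [dg]
      exact Finset.sum_congr h.un.symm (fun _ _ => rfl)
    rw [e1, Finset.sum_union h1, Finset.sum_union h.dAB]
  have h3 : ∑ x ∈ V, (lk H W x).card = dg H V + (∑ a ∈ A, (lk H V a).card +
      ∑ b ∈ B, (lk H V b).card) := by
    rw [dg, sum_lk_comm A V, sum_lk_comm B V, ← Finset.sum_add_distrib, ← Finset.sum_add_distrib]
    exact Finset.sum_congr rfl (fun x _ => h.deg x)
  have h4 := h.sumA
  have h5 := h.symm.sumA
  have h6 : (∑ w ∈ A, ((lk H W w).card : ℤ)) = ((∑ w ∈ A, (lk H W w).card : ℕ) : ℤ) := by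
    push_cast; rfl
  have h7 : (∑ w ∈ B, ((lk H W w).card : ℤ)) = ((∑ w ∈ B, (lk H W w).card : ℕ) : ℤ) := by
    push_cast; rfl
  rw [Psi, Psi, hA, hB, h6, h7, h2, h3, h4, h5]
  push_cast
  ring

/-- **the second gamma-number in terms of an equator and its sides** -/
theorem Sep.G2_eq {D : ℕ} (h : Sep H W V A B) (hA : bdy H W A = V) (hB : bdy H W B = V) :
    G2 H (D + 2) W = G2 H (D + 1) V + (Psi H W A - 2 * ((A.card : ℤ) - 1) * (2 * D + 1)) +
      (Psi H W B - 2 * ((B.card : ℤ) - 1) * (2 * D + 1)) := by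
  have h1 : Disjoint V (A ∪ B) := Finset.disjoint_union_right.2 ⟨h.dVA, h.dVB⟩
  have h2 : (W.card : ℤ) = V.card + (A.card + B.card) := by
    rw [← h.un, Finset.card_union_of_disjoint h1, Finset.card_union_of_disjoint h.dAB]
    push_cast
    ring
  rw [G2, G2, h.dg_eq hA hB, h2]
  ring

end Pool.Agent.J6H30.Gal4
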