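import Pool.Agent.J6H30.Gal4.Out

set_option autoImplicit false
set_option linter.unusedSectionVars false
set_option linter.unusedVariables false

/-! # The sides of an equator -/

namespace Pool.Agent.J6H30.Gal4

open Pool.Agent.W497.FS Pool.Agent.TH417.Gal Pool.Agent.J6H30.Gal2 Pool.Agent.J6H30.Gal3

variable {α : Type} [DecidableEq α] {H : SimpleGraph α} {W V A B : Finset α}

theorem Sep.bdy_subset (h : Sep H W V A B) : bdy H W A ⊆ V := by
  intro x hx
  obtain ⟨h1, h2, a, ha, hxa⟩ := mem_bdy.1 hx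
  rcases h.mem_or h1 with h3 | h3 | h3
  · exact h3
  · exact absurd h3 h2
  · exact absurd hxa.symm (h.no a ha x h3)

theorem Sep.lk_sep (h : Sep H W V A B) {u : α} (hA : (lk H A u).Nonempty)
    (hB : (lk H B u).Nonempty) : Sep H (lk H W u) (lk H V u) (lk H A u) (lk H B u) where
  un := by rw [← lk_union, ← lk_union, h.un]
  dVA := Finset.disjoint_of_subset_left lk_subset (Finset.disjoint_of_subset_right lk_subset h.dVA)
  dVB := Finset.disjoint_of_subset_left lk_subset (Finset.disjoint_of_subset_right lk_subset h.dVB)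
  dAB := Finset.disjoint_of_subset_left lk_subset (Finset.disjoint_of_subset_right lk_subset h.dAB)
  neA := hA
  neB := hB
  no := fun a ha b hb => h.no a (lk_subset ha) b (lk_subset hb)

/-- every vertex of the equator has neighbours on both sides -/
theorem Sep.bdy_eq (d : ℕ) : ∀ {W V A B : Finset α}, NP H (d + 2) W → NP H (d + 1) V →
    Sep H W V A B → bdy H W A = V := by
  induction d with
  | zero =>
    intro W V A B hW hV h
    refine Finset.Subset.antisymm h.bdy_subset ?_
    intro x hx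
    by_contra hxb
    have hxn : ∀ a ∈ A, ¬ H.Adj x a := by
      intro a ha hxa
      exact hxb (mem_bdy.2 ⟨h.subV hx, fun hxA => Finset.disjoint_left.1 h.dVA hx hxA, a, ha, hxa⟩)
    have hc : V.card = 2 := hV.1
    obtain ⟨x', hx', hxx⟩ : ∃ x' ∈ V, x' ≠ x := by
      apply Finset.exists_mem_ne
      omega
    have hVeq : V = {x, x'} := by
      symm
      refine Finset.eq_of_subset_of_card_le ?_ (by rw [hc, Finset.card_pair hxx.symm])
      intro z hz
      rcases Finset.mem_insert.1 hz with h1 | h1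
      · rw [h1]; exact hx
      · rw [Finset.mem_singleton.1 h1]; exact hx'
    have hAx' : x' ∉ A := fun h1 => Finset.disjoint_left.1 h.dVA hx' h1
    obtain ⟨a, ha, b, hb, hbA, hab⟩ := Pool.Agent.W605.FS.Del.main α inferInstance H 0 W x' hW
      (h.subV hx') A (fun a ha => Finset.mem_erase.2 ⟨fun he => hAx' (he ▸ ha), h.subA ha⟩)
      h.neA (fun he => by
        have hxe : x ∈ W.erase x' := Finset.mem_erase.2 ⟨hxx.symm, h.subV hx⟩
        rw [← he] at hxe
        exact Finset.disjoint_left.1 h.dVA hx hxe)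
    obtain ⟨hbx, hbW⟩ := Finset.mem_erase.1 hb
    rcases h.mem_or hbW with h3 | h3 | h3
    · rw [hVeq] at h3
      rcases Finset.mem_insert.1 h3 with h4 | h4
      · rw [h4] at hab
        exact hxn a ha hab.symm
      · exact hbx (Finset.mem_singleton.1 h4)
    · exact hbA h3
    · exact h.no a ha b h3 hab
  | succ d ih =>
    intro W V A B hW hV h
    classical
    refine Finset.Subset.antisymm h.bdy_subset ?_
    by_contra hcon
    set VA : Finset α := bdy H W A with hVA
    have hmem : ∀ x ∈ V, (x ∈ VA ↔ (lk H A x).Nonempty) := by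
      intro x hx
      rw [hVA, mem_bdy]
      constructor
      · rintro ⟨-, -, a, ha, hxa⟩
        exact ⟨a, mem_lk.2 ⟨ha, hxa⟩⟩
      · rintro ⟨a, ha⟩
        obtain ⟨h1, h2⟩ := mem_lk.1 ha
        exact ⟨h.subV hx, fun hxA => Finset.disjoint_left.1 h.dVA hx hxA, a, h1, h2⟩
    have hneVA : VA.Nonempty := by
      obtain ⟨a, ha, b, hb, hbA, hab⟩ := hW.2.1 A h.subA h.neA (fun he => by
        obtain ⟨b, hb⟩ := h.neB
        have := h.subB hb
        rw [← he] at this
        exact Finset.disjoint_left.1 h.dAB this hb)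
      exact ⟨b, mem_bdy.2 ⟨hb, hbA, a, ha, hab.symm⟩⟩
    have hneq : VA ≠ V := fun he => hcon (by rw [he])
    obtain ⟨u, hu, u', hu', huA', huu'⟩ := hV.2.1 VA h.bdy_subset hneVA hneq
    have huV : u ∈ V := h.bdy_subset hu
    have h1 : (lk H A u).Nonempty := (hmem u huV).1 hu
    have h2 : ¬ (lk H A u').Nonempty := fun h3 => huA' ((hmem u' hu').2 h3)
    have hWu := hW.lk (h.subV huV)
    have hVu := hV.lk huV
    have hu'V : u' ∈ lk H V u := mem_lk.2 ⟨hu', huu'⟩
    have hu'W : u' ∈ lk H W u := mem_lk.2 ⟨h.subV hu', huu'⟩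
    by_cases hB : (lk H B u).Nonempty
    · have h3 := ih hWu hVu (h.lk_sep h1 hB)
      rw [← h3] at hu'V
      obtain ⟨-, -, a, ha, hau⟩ := mem_bdy.1 hu'V
      exact h2 ⟨a, mem_lk.2 ⟨(mem_lk.1 ha).1, hau⟩⟩
    · have h4 := hWu.lk hu'W
      have h5 := hVu.lk hu'V
      have h6 : lk H (lk H W u) u' = lk H (lk H V u) u' := by
        ext x
        constructor
        · intro hx
          obtain ⟨h7, h8⟩ := mem_lk.1 hx
          obtain ⟨h9, h10⟩ := mem_lk.1 h7
          rcases h.mem_or h9 with h11 | h11 | h11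
          · exact mem_lk.2 ⟨mem_lk.2 ⟨h11, h10⟩, h8⟩
          · exact absurd ⟨x, mem_lk.2 ⟨h11, h8⟩⟩ h2
          · exact absurd ⟨x, mem_lk.2 ⟨h11, h10⟩⟩ hB
        · intro hx
          exact lk_mono (lk_mono h.subV u) u' hx
      rw [h6] at h4
      have := h4.rank_unique h5
      omega

/-- the sides of an equator are connected -/
theorem Sep.sconn (d : ℕ) : ∀ {W V A B : Finset α}, NP H (d + 2) W → NP H (d + 1) V →
    Sep H W V A B → SConn H A := by
  induction d with
  | zero =>
    intro W V A B hW hV h A1 hA1 hne hneq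
    by_contra hcon
    push Not at hcon
    obtain ⟨a2, ha2⟩ : (A \ A1).Nonempty := by
      rw [Finset.sdiff_nonempty]
      exact fun h1 => hneq (Finset.Subset.antisymm hA1 h1)
    have hA2A : A \ A1 ⊆ A := Finset.sdiff_subset
    have hs1 : Sep H W V A1 ((A \ A1) ∪ B) :=
      { un := by
          rw [← Finset.union_assoc A1, Finset.union_sdiff_of_subset hA1]
          exact h.un
        dVA := Finset.disjoint_of_subset_right hA1 h.dVA
        dVB := Finset.disjoint_union_right.2 ⟨Finset.disjoint_of_subset_right hA2A h.dVA, h.dVB⟩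
        dAB := Finset.disjoint_union_right.2 ⟨Finset.disjoint_sdiff,
          Finset.disjoint_of_subset_left hA1 h.dAB⟩
        neA := hne
        neB := ⟨a2, Finset.mem_union_left _ ha2⟩
        no := by
          intro a ha b hb
          rcases Finset.mem_union.1 hb with h1 | h1
          · exact hcon a ha b (hA2A h1) (Finset.mem_sdiff.1 h1).2
          · exact h.no a (hA1 ha) b h1 }
    have hs2 : Sep H W V (A \ A1) (A1 ∪ B) :=
      { un := by
          rw [← Finset.union_assoc (A \ A1), Finset.sdiff_union_of_subset hA1]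
          exact h.un
        dVA := Finset.disjoint_of_subset_right hA2A h.dVA
        dVB := Finset.disjoint_union_right.2 ⟨Finset.disjoint_of_subset_right hA1 h.dVA, h.dVB⟩
        dAB := Finset.disjoint_union_right.2 ⟨Finset.sdiff_disjoint,
          Finset.disjoint_of_subset_left hA2A h.dAB⟩
        neA := ⟨a2, ha2⟩
        neB := hne.mono Finset.subset_union_left
        no := by
          intro a ha b hb
          rcases Finset.mem_union.1 hb with h1 | h1
          · exact fun hab => hcon b h1 a (hA2A ha) (Finset.mem_sdiff.1 ha).2 hab.symm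
          · exact h.no a (hA2A ha) b h1 }
    obtain ⟨u, hu⟩ := hV.nonempty
    have k1 := Sep.bdy_eq 0 hW hV hs1
    have k2 := Sep.bdy_eq 0 hW hV hs2
    have k3 := Sep.bdy_eq 0 hW hV h.symm
    obtain ⟨-, -, x1, hx1, hux1⟩ := mem_bdy.1 (k1.symm ▸ hu)
    obtain ⟨-, -, x2, hx2, hux2⟩ := mem_bdy.1 (k2.symm ▸ hu)
    obtain ⟨-, -, x3, hx3, hux3⟩ := mem_bdy.1 (k3.symm ▸ hu)
    have hc : (lk H W u).card = 2 := (hW.lk (h.subV hu)).1
    have hsub : ({x1, x2, x3} : Finset α) ⊆ lk H W u := by
      intro x hx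
      simp only [Finset.mem_insert, Finset.mem_singleton] at hx
      rcases hx with rfl | rfl | rfl
      · exact mem_lk.2 ⟨h.subA (hA1 hx1), hux1⟩
      · exact mem_lk.2 ⟨h.subA (hA2A hx2), hux2⟩
      · exact mem_lk.2 ⟨h.subB hx3, hux3⟩
    have h12 : x1 ≠ x2 := fun he => (Finset.mem_sdiff.1 hx2).2 (he ▸ hx1)
    have h13 : x1 ≠ x3 := fun he => Finset.disjoint_left.1 h.dAB (hA1 hx1) (he ▸ hx3)
    have h23 : x2 ≠ x3 := fun he => Finset.disjoint_left.1 h.dAB (hA2A hx2) (he ▸ hx3)
    have hc3 : ({x1, x2, x3} : Finset α).card = 3 := by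
      rw [Finset.card_eq_three]
      exact ⟨x1, x2, x3, h12, h13, h23, rfl⟩
    have := Finset.card_le_card hsub
    omega
  | succ d ih =>
    intro W V A B hW hV h A1 hA1 hne hneq
    by_contra hcon
    push Not at hcon
    obtain ⟨a2, ha2⟩ : (A \ A1).Nonempty := by
      rw [Finset.sdiff_nonempty]
      exact fun h1 => hneq (Finset.Subset.antisymm hA1 h1)
    have hA2A : A \ A1 ⊆ A := Finset.sdiff_subset
    have hs1 : Sep H W V A1 ((A \ A1) ∪ B) :=
      { un := by
          rw [← Finset.union_assoc A1, Finset.union_sdiff_of_subset hA1]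
          exact h.un
        dVA := Finset.disjoint_of_subset_right hA1 h.dVA
        dVB := Finset.disjoint_union_right.2 ⟨Finset.disjoint_of_subset_right hA2A h.dVA, h.dVB⟩
        dAB := Finset.disjoint_union_right.2 ⟨Finset.disjoint_sdiff,
          Finset.disjoint_of_subset_left hA1 h.dAB⟩
        neA := hne
        neB := ⟨a2, Finset.mem_union_left _ ha2⟩
        no := by
          intro a ha b hb
          rcases Finset.mem_union.1 hb with h1 | h1
          · exact hcon a ha b (hA2A h1) (Finset.mem_sdiff.1 h1).2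
          · exact h.no a (hA1 ha) b h1 }
    have hs2 : Sep H W V (A \ A1) (A1 ∪ B) :=
      { un := by
          rw [← Finset.union_assoc (A \ A1), Finset.sdiff_union_of_subset hA1]
          exact h.un
        dVA := Finset.disjoint_of_subset_right hA2A h.dVA
        dVB := Finset.disjoint_union_right.2 ⟨Finset.disjoint_of_subset_right hA1 h.dVA, h.dVB⟩
        dAB := Finset.disjoint_union_right.2 ⟨Finset.sdiff_disjoint,
          Finset.disjoint_of_subset_left hA2A h.dAB⟩
        neA := ⟨a2, ha2⟩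
        neB := hne.mono Finset.subset_union_left
        no := by
          intro a ha b hb
          rcases Finset.mem_union.1 hb with h1 | h1
          · exact fun hab => hcon b h1 a (hA2A ha) (Finset.mem_sdiff.1 ha).2 hab.symm
          · exact h.no a (hA2A ha) b h1 }
    obtain ⟨u, hu⟩ := hV.nonempty
    have k1 := Sep.bdy_eq (d + 1) hW hV hs1
    have k2 := Sep.bdy_eq (d + 1) hW hV hs2
    have k3 := Sep.bdy_eq (d + 1) hW hV h.symm
    obtain ⟨-, -, x1, hx1, hux1⟩ := mem_bdy.1 (k1.symm ▸ hu)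
    obtain ⟨-, -, x2, hx2, hux2⟩ := mem_bdy.1 (k2.symm ▸ hu)
    obtain ⟨-, -, x3, hx3, hux3⟩ := mem_bdy.1 (k3.symm ▸ hu)
    have hsep := h.lk_sep (u := u) ⟨x1, mem_lk.2 ⟨hA1 hx1, hux1⟩⟩ ⟨x3, mem_lk.2 ⟨hx3, hux3⟩⟩
    have hsc := ih (hW.lk (h.subV hu)) (hV.lk hu) hsep
    obtain ⟨a, ha, b, hb, hbA, hab⟩ := hsc (lk H A1 u) (lk_mono hA1 u)
      ⟨x1, mem_lk.2 ⟨hx1, hux1⟩⟩ (fun he => by
        have : x2 ∈ lk H A u := mem_lk.2 ⟨hA2A hx2, hux2⟩
        rw [← he] at this
        exact (Finset.mem_sdiff.1 hx2).2 (mem_lk.1 this).1)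
    refine hcon a (lk_subset ha) b (lk_subset hb) (fun hbA1 => hbA ?_) hab
    exact mem_lk.2 ⟨hbA1, (mem_lk.1 hb).2⟩

end Pool.Agent.J6H30.Gal4
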