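import Pool.Agent.J6H30.Gal4.Comp
import Pool.Agent.J6H30.Gal4.Defs

set_option autoImplicit false
set_option linter.unusedSectionVars false
set_option linter.unusedVariables false

/-! # Flag homology spheres and their induced equators -/

namespace Pool.Agent.J6H30.Gal4

open Pool.Agent.W497.FS Pool.Agent.TH417.Gal Pool.Agent.J6H30.Gal2 Pool.Agent.J6H30.Gal3

variable {k : Type} [Field k] {n d m : ℕ} {S : Finset (Finset (Fin n))}
  {W V A B : Finset (Fin n)}

theorem ind_vert (hV : V ⊆ vert S) : vert (ind S V) = V := by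
  ext x
  rw [mem_vert, ind, Finset.mem_filter, Finset.singleton_subset_iff]
  exact ⟨fun h => h.2, fun h => ⟨mem_vert.1 (hV h), h⟩⟩

theorem ind_adj {x z : Fin n} (hx : x ∈ V) (hz : z ∈ V) :
    (skel (ind S V)).Adj x z ↔ (skel S).Adj x z := by
  change (x ≠ z ∧ ({x, z} : Finset (Fin n)) ∈ ind S V) ↔ (x ≠ z ∧ ({x, z} : Finset (Fin n)) ∈ S)
  rw [ind, Finset.mem_filter]
  constructor
  · exact fun h => ⟨h.1, h.2.1⟩
  · refine fun h => ⟨h.1, h.2, ?_⟩
    intro t ht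
    rcases Finset.mem_insert.1 ht with h1 | h1
    · rw [h1]; exact hx
    · rw [Finset.mem_singleton.1 h1]; exact hz

theorem ind_np (h : IsFlagSphere k m (ind S V)) (hV : V ⊆ vert S) : NP (skel S) m V := by
  have h1 := h.np
  rw [ind_vert hV] at h1
  exact NP_congr' (fun x hx z hz => ind_adj hx hz) h1

theorem eul_congr {α : Type} [DecidableEq α] {H H' : SimpleGraph α} {d : ℕ} {W : Finset α}
    (hc : ∀ x ∈ W, ∀ z ∈ W, H.Adj x z ↔ H'.Adj x z) (h : Eul H d W) : Eul H' d W := by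
  have hcl : cl H W = cl H' W := by
    ext σ
    rw [mem_cl, mem_cl]
    constructor
    · rintro ⟨h1, h2⟩
      exact ⟨h1, fun x hx z hz hxz => (hc x (h1 hx) z (h1 hz)).1 (h2 x hx z hz hxz)⟩
    · rintro ⟨h1, h2⟩
      exact ⟨h1, fun x hx z hz hxz => (hc x (h1 hx) z (h1 hz)).2 (h2 x hx z hz hxz)⟩
  rw [Eul, ← hcl]
  exact h

theorem ind_eul (h : IsFlagSphere k m (ind S V)) (hV : V ⊆ vert S) : Eul (skel S) m V := by
  have h1 := h.eul
  rw [ind_vert hV] at h1
  exact eul_congr (fun x hx z hz => ind_adj hx hz) h1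

theorem dg_congr {α : Type} [DecidableEq α] {H H' : SimpleGraph α} {W : Finset α}
    (hc : ∀ x ∈ W, ∀ z ∈ W, H.Adj x z ↔ H'.Adj x z) : dg H W = dg H' W := by
  rw [dg, dg]
  refine Finset.sum_congr rfl (fun x hx => ?_)
  congr 1
  ext z
  rw [mem_lk, mem_lk]
  constructor
  · rintro ⟨h1, h2⟩; exact ⟨h1, (hc x hx z h1).1 h2⟩
  · rintro ⟨h1, h2⟩; exact ⟨h1, (hc x hx z h1).2 h2⟩

theorem ind_gamma (h : IsFlagSphere k m (ind S V)) (hV : V ⊆ vert S) (hm : 4 ≤ m)
    {γ : ℕ → ℤ} (hγ : IsGamma m (ind S V) γ) : 2 * γ 2 = G2 (skel S) m V := by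
  rw [gamma_G2 h hm hγ, G2, G2, ind_vert hV, dg_congr (fun x hx z hz => ind_adj hx hz)]

theorem Conn.sconn {J : Finset (Fin n)} (h : Conn S J) : SConn (skel S) J := by
  intro A hA hne hneq
  obtain ⟨a, ha, b, hb, hbA, hab⟩ := h.2 A hA hne hneq
  exact ⟨a, ha, b, hb, hbA, fun he => hbA (he ▸ ha), hab⟩

theorem Equator.sep (h : Equator k S m W V A B) : Sep (skel S) W V A B :=
  ⟨h.un, h.dVA, h.dVB, h.dAB, h.neA, h.neB, fun a ha b hb hab => h.no a ha b hb hab.2⟩

theorem cost_eq {J : Finset (Fin n)} (hVA : Disjoint V A) :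
    cost S (m + 1) V A J =
      (J.card - 4) * (J.card - 5) + 2 * ∑ w ∈ A \ J, (2 * m - (lk (skel S) V w).card) := by
  rw [cost, Nat.add_sub_cancel]
  congr 2
  refine Finset.sum_congr rfl (fun w hw => ?_)
  congr 2
  ext x
  rw [Finset.mem_filter, mem_lk]
  constructor
  · rintro ⟨h1, h2⟩
    exact ⟨h1, fun he => Finset.disjoint_left.1 hVA h1 (he ▸ (Finset.mem_sdiff.1 hw).1), h2⟩
  · rintro ⟨h1, h2⟩
    exact ⟨h1, h2.2⟩

/-- comparison at the level of `G2` -/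
theorem Equator.G2_le {D : ℕ} (h : Equator k S (D + 1) W V A B) (hW : W ⊆ vert S)
    (hNP : NP (skel S) (D + 2) W) {J K : Finset (Fin n)} (hJ : J ⊆ A) (hJc : Conn S J)
    (hK : K ⊆ B) (hKc : Conn S K) :
    G2 (skel S) (D + 1) V ≤ G2 (skel S) (D + 2) W +
      (cost S (D + 1) V A J + cost S (D + 1) V B K : ℕ) := by
  have hVW : V ⊆ W := h.sep.subV
  have h1 := h.sep.G2_le hNP (ind_np h.sph (hVW.trans hW)) hJ hJc.sconn hJc.1 hK hKc.sconn hKc.1
  rw [cost_eq h.dVA, cost_eq h.dVB]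
  exact h1

/-- **comparison with an induced equator** -/
theorem sphere_equator (hS : IsFlagSphere k d S) (hd : 5 ≤ d)
    (h : Equator k S (d - 1) (vert S) V A B) {J K : Finset (Fin n)} (hJ : J ⊆ A) (hJc : Conn S J)
    (hK : K ⊆ B) (hKc : Conn S K) {γ γ' : ℕ → ℤ} (hγ : IsGamma d S γ)
    (hγ' : IsGamma (d - 1) (ind S V) γ') :
    2 * γ' 2 ≤ 2 * γ 2 + (cost S (d - 1) V A J + cost S (d - 1) V B K : ℕ) := by
  obtain ⟨D, rfl⟩ : ∃ D, d = D + 2 := ⟨d - 2, by omega⟩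
  have e1 : D + 2 - 1 = D + 1 := by omega
  rw [e1] at h hγ' ⊢
  have h1 := h.G2_le (Finset.Subset.refl _) hS.np hJ hJc hK hKc
  have h2 := gamma_G2 hS (by omega) hγ
  have h3 := ind_gamma h.sph h.sep.subV (by omega) hγ'
  rw [h2, h3]
  push_cast at h1 ⊢
  exact h1

/-- **chains of induced equators** -/
theorem sphere_chain (hS : IsFlagSphere k d S) (hd : 4 ≤ d) {E P Q J K : ℕ → Finset (Fin n)}
    (hE : E d = vert S)
    (h : ∀ j, 3 ≤ j → j < d → Equator k S j (E (j + 1)) (E j) (P j) (Q j) ∧ J j ⊆ P j ∧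
      Conn S (J j) ∧ K j ⊆ Q j ∧ Conn S (K j)) {γ : ℕ → ℤ} (hγ : IsGamma d S γ) :
    -((∑ j ∈ Finset.Ico 3 d, (cost S j (E j) (P j) (J j) + cost S j (E j) (Q j) (K j)) : ℕ) : ℤ) ≤
      2 * γ 2 := by
  have hsub : ∀ i, i + 3 ≤ d → E (d - i) ⊆ vert S := by
    intro i
    induction i with
    | zero => intro _; rw [Nat.sub_zero, hE]
    | succ i ih =>
      intro hi
      have h1 := (h (d - (i + 1)) (by omega) (by omega)).1.sep.subV
      have e1 : d - (i + 1) + 1 = d - i := by omega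
      rw [e1] at h1
      exact h1.trans (ih (by omega))
  have hsub' : ∀ j, 3 ≤ j → j ≤ d → E j ⊆ vert S := by
    intro j h1 h2
    have := hsub (d - j) (by omega)
    rwa [show d - (d - j) = j by omega] at this
  have hnp : ∀ j, 3 ≤ j → j ≤ d → NP (skel S) j (E j) := by
    intro j h1 h2
    rcases Nat.lt_or_ge j d with h3 | h3
    · exact ind_np (h j h1 h3).1.sph (hsub' j h1 h2)
    · obtain rfl : j = d := by omega
      rw [hE]
      exact hS.np
  have key : ∀ i, i + 3 ≤ d →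
      0 ≤ G2 (skel S) ((i + 3 : ℕ) : ℤ) (E (i + 3)) + ((∑ j ∈ Finset.Ico 3 (i + 3),
        (cost S j (E j) (P j) (J j) + cost S j (E j) (Q j) (K j)) : ℕ) : ℤ) := by
    intro i
    induction i with
    | zero =>
      intro _
      have h1 := (h 3 le_rfl (by omega)).1
      have h2 := G2_three (hnp 3 le_rfl (by omega)) (ind_eul h1.sph (hsub' 3 le_rfl (by omega)))
      have e1 : (((0 + 3 : ℕ)) : ℤ) = 3 := by norm_num
      rw [e1, show (0 + 3 : ℕ) = 3 from rfl, h2]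
      simp
    | succ i ih =>
      intro hi
      have h1 := ih (by omega)
      obtain ⟨h2, h3, h4, h5, h6⟩ := h (i + 3) (by omega) (by omega)
      have h7 : Equator k S ((i + 2) + 1) (E (i + 3 + 1)) (E (i + 3)) (P (i + 3)) (Q (i + 3)) := h2
      have h8 : NP (skel S) ((i + 2) + 2) (E (i + 3 + 1)) := hnp (i + 3 + 1) (by omega) (by omega)
      have h9 := h7.G2_le (hsub' (i + 3 + 1) (by omega) (by omega)) h8 h3 h4 h5 h6
      rw [show i + 1 + 3 = i + 3 + 1 by ring, Finset.sum_Ico_succ_top (by omega)]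
      have e2 : (((i + 2 : ℕ)) : ℤ) + 1 = ((i + 3 : ℕ) : ℤ) := by push_cast; ring
      have e3 : (((i + 2 : ℕ)) : ℤ) + 2 = ((i + 3 + 1 : ℕ) : ℤ) := by push_cast; ring
      rw [e2, e3] at h9
      have e4 : cost S (i + 2 + 1) (E (i + 3)) (P (i + 3)) (J (i + 3)) =
        cost S (i + 3) (E (i + 3)) (P (i + 3)) (J (i + 3)) := rfl
      have e5 : cost S (i + 2 + 1) (E (i + 3)) (Q (i + 3)) (K (i + 3)) =
        cost S (i + 3) (E (i + 3)) (Q (i + 3)) (K (i + 3)) := rfl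
      rw [e4, e5] at h9
      push_cast at h1 h9 ⊢
      linarith
  have h1 := key (d - 3) (by omega)
  rw [show d - 3 + 3 = d by omega, hE] at h1
  have h2 := gamma_G2 hS hd hγ
  rw [h2]
  linarith

end Pool.Agent.J6H30.Gal4
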